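import Pool.Agent.N898.BU.Stm

/-!
# Growth of the elementary term of the functional equation
-/

set_option autoImplicit false

namespace Pool.Agent.N488.BU

open Filter Topology Complex MeasureTheory Set
open Pool.Agent.N210.FV Pool.Agent.N898.BU

/-- logarithmic growth on the lines left of `Re s = 1/2` -/
def Gr (d : ℝ) (e : ℂ → ℂ) : Prop := ∃ η₀ : ℝ, 0 < η₀ ∧ ∀ η : ℝ, 0 < η → η < η₀ →
  Continuous (fun t : ℝ => e (((1 / 2 - η : ℝ) : ℂ) + t * I)) ∧
  ∃ C : ℝ, ∀ t : ℝ, ‖e (((1 / 2 - η : ℝ) : ℂ) + t * I) +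
    ((d * Real.log (1 + |t|) : ℝ) : ℂ)‖ ≤ C

variable {d d' : ℝ} {e f : ℂ → ℂ}

theorem Gr.add (he : Gr d e) (hf : Gr d' f) : Gr (d + d') fun s => e s + f s := by
  obtain ⟨η₁, h1, h2⟩ := he
  obtain ⟨η₂, h3, h4⟩ := hf
  refine ⟨min η₁ η₂, lt_min h1 h3, fun η hη hη2 => ?_⟩
  obtain ⟨a1, C1, a3⟩ := h2 η hη (hη2.trans_le (min_le_left _ _))
  obtain ⟨b1, C2, b3⟩ := h4 η hη (hη2.trans_le (min_le_right _ _))
  refine ⟨a1.add b1, C1 + C2, fun t => ?_⟩
  refine le_trans (le_of_eq ?_) ((norm_add_le _ _).trans (add_le_add (a3 t) (b3 t)))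
  congr 1
  push_cast
  ring

theorem Gr.real_mul (he : Gr d e) (c : ℝ) : Gr (c * d) fun s => (c : ℂ) * e s := by
  obtain ⟨η₁, h1, h2⟩ := he
  refine ⟨η₁, h1, fun η hη hη2 => ?_⟩
  obtain ⟨a1, C1, a3⟩ := h2 η hη hη2
  refine ⟨continuous_const.mul a1, |c| * C1, fun t => ?_⟩
  have h3 := mul_le_mul_of_nonneg_left (a3 t) (abs_nonneg c)
  refine le_trans (le_of_eq ?_) h3
  have h4 : |c| = ‖(c : ℂ)‖ := by rw [Complex.norm_real, Real.norm_eq_abs]
  rw [h4, ← norm_mul]
  congr 1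
  push_cast
  ring

theorem Gr.const (c : ℂ) : Gr 0 fun _ => c := by
  refine ⟨1, one_pos, fun η _ _ => ⟨continuous_const, ‖c‖, fun t => ?_⟩⟩
  rw [zero_mul, ofReal_zero, add_zero]

theorem Gr.list {ι : Type*} (l : List ι) {f : ι → ℂ → ℂ} (h : ∀ i ∈ l, Gr d (f i)) :
    Gr (l.length * d) fun z => (l.map fun i => f i z).sum := by
  induction l with
  | nil => simpa using Gr.const 0
  | cons a l ih =>
    have h1 := (h a List.mem_cons_self).add (ih fun i hi => h i (List.mem_cons_of_mem _ hi))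
    have e1 : ((a :: l).length : ℝ) * d = d + l.length * d := by
      rw [List.length_cons]
      push_cast
      ring
    rw [e1]
    simpa only [List.map_cons, List.sum_cons] using h1

theorem line_re (η t : ℝ) : (((1 / 2 - η : ℝ) : ℂ) + t * I).re = 1 / 2 - η := by
  simp

theorem line_im (η t : ℝ) : (((1 / 2 - η : ℝ) : ℂ) + t * I).im = t := by
  simp

/-- Euler factors -/
theorem ge_gr {b : ℂ} (hb : b ≠ 0) {lam : ℝ} (hl : lam ≠ 0) : Gr 0 (ge b lam) := by
  set x₁ : ℝ := Real.log ‖b‖ / lam with hx₁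
  obtain ⟨η₀, hη₀, h0⟩ : ∃ η₀ : ℝ, 0 < η₀ ∧ ∀ η : ℝ, 0 < η → η < η₀ → x₁ ≠ 1 / 2 - η := by
    rcases lt_or_ge x₁ (1 / 2) with h | h
    · refine ⟨1 / 2 - x₁, by linarith, fun η _ h2 h3 => by linarith⟩
    · exact ⟨1, one_pos, fun _ _ _ h3 => by linarith⟩
  refine ⟨η₀, hη₀, fun η hη hη2 => ⟨?_, ?_⟩⟩
  · refine continuous_iff_continuousAt.2 fun t => ?_
    have h1 : ContinuousAt (ge b lam) (((1 / 2 - η : ℝ) : ℂ) + t * I) :=
      ge_cont hb hl (by rw [line_re]; exact h0 η hη hη2)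
    exact ContinuousAt.comp (f := fun t : ℝ => (((1 / 2 - η : ℝ) : ℂ) + t * I)) h1 (by fun_prop)
  · set N : ℝ := Real.exp (lam * (x₁ - (1 / 2 - η))) with hN
    have hN1 : N ≠ 1 := by
      intro h1
      rw [hN, Real.exp_eq_one_iff] at h1
      rcases mul_eq_zero.1 h1 with h2 | h2
      · exact hl h2
      · exact h0 η hη hη2 (by linarith)
    refine ⟨N / |1 - N|, fun t => ?_⟩
    rw [zero_mul, ofReal_zero, add_zero]
    have hnb : ‖b * exp (-lam * (((1 / 2 - η : ℝ) : ℂ) + t * I))‖ = N := by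
      rw [norm_b b hb lam hl, line_re]
    unfold ge
    rw [norm_div, hnb]
    have h7 : |1 - N| ≤ ‖1 - b * exp (-lam * (((1 / 2 - η : ℝ) : ℂ) + t * I))‖ := by
      have := abs_norm_sub_norm_le (1 : ℂ) (b * exp (-lam * (((1 / 2 - η : ℝ) : ℂ) + t * I)))
      rwa [norm_one, hnb] at this
    have h8 : 0 < |1 - N| := abs_pos.2 (sub_ne_zero.2 hN1.symm)
    have h9 : 0 ≤ N := (Real.exp_pos _).le
    gcongr

theorem he_gr {x : ℕ × ℂ} (hx : 1 < x.1) : Gr 0 (he x) := by
  have hlog : Real.log x.1 ≠ 0 := (Real.log_pos (by exact_mod_cast hx)).ne'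
  unfold he
  by_cases hb : x.2 = 0
  · simp only [hb, if_true]
    exact Gr.const 0
  · simp only [hb, if_false]
    have := (ge_gr hb hlog).real_mul (Real.log x.1)
    rwa [mul_zero] at this

theorem he_gr' {x : ℕ × ℂ} (hx : 1 < x.1) : Gr 0 fun s => he x (1 - s) := by
  have hlog : Real.log x.1 ≠ 0 := (Real.log_pos (by exact_mod_cast hx)).ne'
  by_cases hb : x.2 = 0
  · have e : (fun s => he x (1 - s)) = fun _ => 0 := by
      funext s
      unfold he
      rw [if_pos hb]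
    rw [e]
    exact Gr.const 0
  · have e : ∀ s : ℂ, ge x.2 (Real.log x.1) (1 - s) =
        ge (x.2 * exp (-((Real.log x.1 : ℝ) : ℂ))) (-Real.log x.1) s := by
      intro s
      have h1 : x.2 * exp (-((Real.log x.1 : ℝ) : ℂ) * (1 - s)) =
          x.2 * exp (-((Real.log x.1 : ℝ) : ℂ)) * exp (-((-Real.log x.1 : ℝ) : ℂ) * s) := by
        rw [mul_assoc, ← exp_add]
        congr 2
        push_cast
        ring
      unfold ge
      rw [h1]
    have e2 : (fun s => he x (1 - s)) = fun s => ((Real.log x.1 : ℝ) : ℂ) *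
        ge (x.2 * exp (-((Real.log x.1 : ℝ) : ℂ))) (-Real.log x.1) s := by
      funext s
      unfold he
      rw [if_neg hb, e]
    rw [e2]
    have := (ge_gr (mul_ne_zero hb (exp_ne_zero (-((Real.log x.1 : ℝ) : ℂ))))
      (neg_ne_zero.2 hlog)).real_mul (Real.log x.1)
    rwa [mul_zero] at this

/-- the digamma function -/
theorem psi_gr {κ : ℝ} (hκ : |κ| = 1 / 2) (a : ℂ) :
    Gr (-1) fun s => logDeriv Gamma (κ * s + a) := by
  obtain ⟨C, hC, hb⟩ := SG.digamma_bound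
  obtain ⟨r, hr, hgap⟩ := int_gap (κ * (1 / 2) + a.re)
  have hκ0 : κ ≠ 0 := by
    intro h
    rw [h, abs_zero] at hκ
    norm_num at hκ
  have hre : ∀ s : ℂ, (κ * s + a).re = κ * s.re + a.re := fun s => by
    rw [add_re, re_ofReal_mul]
  have him : ∀ s : ℂ, (κ * s + a).im = κ * s.im + a.im := fun s => by
    rw [add_im, im_ofReal_mul]
  have hint : ∀ s : ℂ, 1 / 2 - 2 * r < s.re → s.re < 1 / 2 →
      (κ * s + a).re ∉ Set.range ((↑) : ℤ → ℝ) := by
    intro s h1 h2
    apply hgap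
    · rw [hre]
      intro h3
      have h4 : κ * (s.re - 1 / 2) = 0 := by linarith
      rcases mul_eq_zero.1 h4 with h5 | h5
      · exact hκ0 h5
      · linarith
    · have h3 : (κ * s + a).re - (κ * (1 / 2) + a.re) = κ * (s.re - 1 / 2) := by
        rw [hre]
        ring
      rw [h3, abs_mul, hκ, abs_of_neg (by linarith)]
      linarith
  set T0 : ℝ := 2 * (|a.im| + 4 * (1 + |a.re|)) with hT0
  have hT00 : 0 ≤ T0 := by positivity
  have hbig : ∀ s : ℂ, |s.re| ≤ 1 → T0 ≤ |s.im| → 4 ≤ |(κ * s + a).im| ∧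
      |(κ * s + a).re| ≤ |(κ * s + a).im| / 4 ∧ |s.im| / 2 - |a.im| ≤ |(κ * s + a).im| ∧
      |(κ * s + a).im| ≤ |s.im| / 2 + |a.im| := by
    intro s h1 h2
    rw [hre, him]
    have h3 : |κ * s.im| = |s.im| / 2 := by rw [abs_mul, hκ]; ring
    have h4 : |κ * s.re| ≤ 1 / 2 := by rw [abs_mul, hκ]; linarith
    have h5 : |s.im| / 2 - |a.im| ≤ |κ * s.im + a.im| := by
      have := abs_sub_abs_le_abs_sub (κ * s.im) (-a.im)
      rw [abs_neg, sub_neg_eq_add, h3] at this
      exact this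
    have h6 : |κ * s.im + a.im| ≤ |s.im| / 2 + |a.im| := by
      have := abs_add_le (κ * s.im) a.im
      rw [h3] at this
      exact this
    have h7 : |κ * s.re + a.re| ≤ 1 / 2 + |a.re| := by
      have := abs_add_le (κ * s.re) a.re
      linarith
    have h8 := abs_nonneg a.re
    refine ⟨by linarith, by linarith, h5, h6⟩
  refine ⟨min r (1 / 2), lt_min hr (by norm_num), fun η hη hη2 => ?_⟩
  have hηr : η < r := hη2.trans_le (min_le_left _ _)
  have hη12 : η < 1 / 2 := hη2.trans_le (min_le_right _ _)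
  have hgc : Continuous fun t : ℝ => logDeriv Gamma (κ * (((1 / 2 - η : ℝ) : ℂ) + t * I) + a) := by
    refine continuous_iff_continuousAt.2 fun t => ?_
    have h1 : ContinuousAt (logDeriv Gamma) (κ * (((1 / 2 - η : ℝ) : ℂ) + t * I) + a) :=
      (psi_an (Or.inr (hint _ (by rw [line_re]; linarith)
        (by rw [line_re]; linarith)))).continuousAt
    exact ContinuousAt.comp (f := fun t : ℝ => (κ : ℂ) * (((1 / 2 - η : ℝ) : ℂ) + t * I) + a) h1
      (by fun_prop)
  refine ⟨hgc, ?_⟩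
  obtain ⟨K, hK⟩ := (isCompact_Icc (a := -T0) (b := T0)).exists_bound_of_continuousOn
    hgc.continuousOn
  refine ⟨max (K + Real.log (1 + T0)) (C + Real.log (3 + 2 * |a.im|)), fun t => ?_⟩
  have hat := abs_nonneg t
  have hai := abs_nonneg a.im
  have e0 : logDeriv Gamma (κ * (((1 / 2 - η : ℝ) : ℂ) + t * I) + a) +
      ((-1 * Real.log (1 + |t|) : ℝ) : ℂ) =
      logDeriv Gamma (κ * (((1 / 2 - η : ℝ) : ℂ) + t * I) + a) - (Real.log (1 + |t|) : ℝ) := by
    push_cast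
    ring
  rw [e0]
  rcases le_total T0 |t| with h2 | h2
  · refine le_trans ?_ (le_max_right _ _)
    obtain ⟨a1, a2, a3, a4⟩ := hbig (((1 / 2 - η : ℝ) : ℂ) + t * I)
      (by rw [line_re, abs_le]; constructor <;> linarith) (by rw [line_im]; exact h2)
    rw [line_im] at a3 a4
    have h3 := hb _ (by linarith) (by linarith : |(κ * (((1 / 2 - η : ℝ) : ℂ) + t * I) + a).re| ≤
      |(κ * (((1 / 2 - η : ℝ) : ℂ) + t * I) + a).im|)
    set z : ℂ := κ * (((1 / 2 - η : ℝ) : ℂ) + t * I) + a with hz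
    have h4 : |Real.log |z.im| - Real.log (1 + |t|)| ≤ Real.log (3 + 2 * |a.im|) := by
      have b0 : 0 < |z.im| := by linarith
      have b1 : (0 : ℝ) < 3 + 2 * |a.im| := by linarith
      have b2 : (0 : ℝ) < 1 + |t| := by linarith
      rw [abs_le]
      constructor
      · have c1 : 1 + |t| ≤ (3 + 2 * |a.im|) * |z.im| := by nlinarith
        have c2 := Real.log_le_log b2 c1
        rw [Real.log_mul b1.ne' b0.ne'] at c2
        linarith
      · have c1 : |z.im| ≤ (3 + 2 * |a.im|) * (1 + |t|) := by nlinarith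
        have c2 := Real.log_le_log b0 c1
        rw [Real.log_mul b1.ne' b2.ne'] at c2
        linarith
    have h5 : ‖((Real.log |z.im| : ℝ) : ℂ) - ((Real.log (1 + |t|) : ℝ) : ℂ)‖ ≤
        Real.log (3 + 2 * |a.im|) := by
      rw [← ofReal_sub, Complex.norm_real, Real.norm_eq_abs]
      exact h4
    have h6 := norm_add_le (logDeriv Gamma z - Real.log |z.im|)
      (((Real.log |z.im| : ℝ) : ℂ) - ((Real.log (1 + |t|) : ℝ) : ℂ))
    rw [sub_add_sub_cancel] at h6
    linarith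
  · refine le_trans ?_ (le_max_left _ _)
    have h3 := hK t (abs_le.1 h2)
    refine (norm_sub_le _ _).trans (add_le_add h3 ?_)
    rw [Complex.norm_real, Real.norm_of_nonneg (Real.log_nonneg (by linarith))]
    exact Real.log_le_log (by linarith) (by linarith)

theorem hg_gr (m : ℂ) : Gr (1 / 2) (hg m) := by
  have h := (Gr.const ((Real.log Real.pi / 2 : ℝ) : ℂ)).add
    ((psi_gr (κ := 1 / 2) (by norm_num) (m / 2)).real_mul (-(1 / 2)))
  rw [show (0 : ℝ) + -(1 / 2) * -1 = 1 / 2 by norm_num] at h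
  have e : hg m = fun s => ((Real.log Real.pi / 2 : ℝ) : ℂ) +
      ((-(1 / 2) : ℝ) : ℂ) * logDeriv Gamma (((1 / 2 : ℝ) : ℂ) * s + m / 2) := by
    funext s
    unfold hg
    push_cast
    ring
  rw [e]
  exact h

theorem hg_gr' (m : ℂ) : Gr (1 / 2) fun s => hg m (1 - s) := by
  have h := (Gr.const ((Real.log Real.pi / 2 : ℝ) : ℂ)).add
    ((psi_gr (κ := -(1 / 2)) (by rw [abs_neg]; norm_num) (1 / 2 + m / 2)).real_mul (-(1 / 2)))
  rw [show (0 : ℝ) + -(1 / 2) * -1 = 1 / 2 by norm_num] at h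
  have e : (fun s => hg m (1 - s)) = fun s => ((Real.log Real.pi / 2 : ℝ) : ℂ) +
      ((-(1 / 2) : ℝ) : ℂ) * logDeriv Gamma (((-(1 / 2) : ℝ) : ℂ) * s + (1 / 2 + m / 2)) := by
    funext s
    unfold hg
    have e1 : ((1 / 2 : ℝ) : ℂ) * (1 - s) + m / 2 =
        ((-(1 / 2) : ℝ) : ℂ) * s + (1 / 2 + m / 2) := by
      push_cast
      ring
    rw [e1]
    push_cast
    ring
  rw [e]
  exact h

theorem main_HG : S_HG := by
  intro μ l l' q hl hl'
  have h1 : Gr (μ.length * (1 / 2 + 1 / 2)) fun s => (μ.map fun m => hg m s + hg m (1 - s)).sum :=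
    Gr.list μ fun m _ => (hg_gr m).add (hg_gr' m)
  have h2 : Gr (l.length * (0 + 0)) fun s => (l.map fun x => he x s + he x (1 - s)).sum :=
    Gr.list l fun x hx => (he_gr (hl x hx)).add (he_gr' (hl x hx))
  have h3 : Gr (l'.length * (0 + 0)) fun s => (l'.map fun x => he x s + he x (1 - s)).sum :=
    Gr.list l' fun x hx => (he_gr (hl' x hx)).add (he_gr' (hl' x hx))
  have h4 := (((Gr.const (-2 * Real.log q)).add h1).add h2).add (h3.real_mul (-1))
  have e1 : (0 : ℝ) + μ.length * (1 / 2 + 1 / 2) + l.length * (0 + 0) +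
      -1 * (l'.length * (0 + 0)) = μ.length := by ring
  rw [e1] at h4
  obtain ⟨η₀, h5, h6⟩ := h4
  refine ⟨η₀, h5, fun η hη hη2 => ?_⟩
  have h7 := h6 η hη hη2
  have e2 : ∀ s, HH μ l l' q s = -2 * Real.log q + (μ.map fun m => hg m s + hg m (1 - s)).sum +
      (l.map fun x => he x s + he x (1 - s)).sum +
      ((-1 : ℝ) : ℂ) * (l'.map fun x => he x s + he x (1 - s)).sum := by
    intro s
    unfold HH
    push_cast
    ring
  simp only [e2]
  exact h7

end Pool.Agent.N488.BU
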